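import Pool.Agent.K4H3.CH.Rep

/-!
# Cyclotomic integers of Cassels height `9/4`

Up to equivalence there are exactly two cyclotomic integers of Cassels height `9/4`:
`1 + ω₁₅` and `1 + ω₇ + ω₇ ω₅`.

The proof is an induction on the level `N` of a cyclotomic field containing the integer. When
`p² ∣ N` the height is a sum of heights at level `N / p`. When `p ∣ N` exactly once, Cassels'
identity writes `(p - 1)` times the height as the sum of the heights of the differences of the `p`
coefficients; together with the fact that a height is `0`, `1` or at least `3/2`, that height one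
means a root of unity, that at levels dividing `6` the height is a rational integer, and the formula
`2 - 2 μ(n) / φ(n)` for the height of `1 - ω_n`, this leaves only the two classes.
-/

set_option autoImplicit false

namespace Pool.Agent.Results.MP_42a792_nt.HeightNineQuarters

open Polynomial

/-- A cyclotomic integer: an algebraic integer in some cyclotomic field `ℚ(ω_n)`. -/
def IsCyclotomicInteger (β : ℂ) : Prop :=
  IsIntegral ℤ β ∧ ∃ n : ℕ, 0 < n ∧
    β ∈ IntermediateField.adjoin ℚ {Complex.exp (2 * Real.pi * Complex.I / n)}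

/-- `β'` is a conjugate of the algebraic number `β`: a root of its minimal polynomial over `ℚ`. -/
def IsConjugate (β β' : ℂ) : Prop := aeval β' (minpoly ℚ β) = 0

/-- The Cassels height: the average of `|x|²` over the conjugates `x` of `β`, which are the complex
roots of the minimal polynomial of `β` over `ℚ`. -/
noncomputable def casselsHeight (β : ℂ) : ℝ :=
  (((minpoly ℚ β).aroots ℂ).map fun x => ‖x‖ ^ 2).sum / (minpoly ℚ β).natDegree

/-- `β` and `γ` are equivalent: `β` is a root of unity times a conjugate of `γ`. -/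
def Equivalent (β γ : ℂ) : Prop :=
  ∃ γ' u : ℂ, IsConjugate γ γ' ∧ (∃ n : ℕ, 0 < n ∧ u ^ n = 1) ∧ β = u * γ'

/-- The root of unity `ω_n = exp(2πi/n)`. -/
noncomputable def ω (n : ℕ) : ℂ := Complex.exp (2 * Real.pi * Complex.I / n)

open Pool.Agent.K4H3.CH Pool.Agent.Helper781.CycHouse

lemma height_eq (β : ℂ) : casselsHeight β = Ht β := rfl

lemma ω_prim {n : ℕ} (hn : 0 < n) : IsPrimitiveRoot (ω n) n :=
  Complex.isPrimitiveRoot_exp n hn.ne'

lemma prim35 : IsPrimitiveRoot (ω 7 * ω 5) 35 :=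
  prim_mul (by norm_num) (ω_prim (by norm_num)) (ω_prim (by norm_num))

lemma rep_one : 1 + ω 15 = aeval (ω 15) (1 + X : ℤ[X]) := by simp

lemma rep_two : 1 + ω 7 + ω 7 * ω 5 = aeval (ω 7 * ω 5) F2 :=
  (F2_val (ω_prim (by norm_num)).pow_eq_one (ω_prim (by norm_num)).pow_eq_one).symm

lemma good_equiv {β : ℂ} (h : Good β) :
    Equivalent β (1 + ω 15) ∨ Equivalent β (1 + ω 7 + ω 7 * ω 5) := by
  obtain ⟨u, hu, ⟨w, hw, rfl⟩ | ⟨a, b, ha, hb, rfl⟩⟩ := h
  · left
    refine ⟨1 + w, u, ?_, hu, rfl⟩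
    unfold IsConjugate
    rw [rep_one]
    have h1 := conj_of_prim (by norm_num) (ω_prim (show 0 < 15 by norm_num)) hw (1 + X : ℤ[X])
    simpa using h1
  · right
    refine ⟨1 + a + a * b, u, ?_, hu, rfl⟩
    unfold IsConjugate
    rw [rep_two, ← F2_val ha.pow_eq_one hb.pow_eq_one]
    exact conj_of_prim (by norm_num) prim35 (prim_mul (by norm_num) ha hb) F2

lemma equiv_height {β : ℂ}
    (h : Equivalent β (1 + ω 15) ∨ Equivalent β (1 + ω 7 + ω 7 * ω 5)) :
    casselsHeight β = 9 / 4 := by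
  rcases h with ⟨γ', u, hγ, hu, rfl⟩ | ⟨γ', u, hγ, hu, rfl⟩
  · unfold IsConjugate at hγ
    rw [rep_one] at hγ
    obtain ⟨w, hw, rfl⟩ := exists_prim (by norm_num) (ω_prim (show 0 < 15 by norm_num)) _ _ hγ
    rw [height_eq, Ht_root_mul (by norm_num) hw _ hu, Ht_eq_mean (by norm_num) hw, mean_one]
  · unfold IsConjugate at hγ
    rw [rep_two] at hγ
    obtain ⟨w, hw, rfl⟩ := exists_prim (by norm_num) prim35 _ _ hγ
    rw [height_eq, Ht_root_mul (by norm_num) hw _ hu, Ht_eq_mean (by norm_num) hw, mean_two]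

lemma equiv_refl (β : ℂ) : Equivalent β β :=
  ⟨β, 1, minpoly.aeval ℚ β, ⟨1, one_pos, one_pow 1⟩, (one_mul β).symm⟩

lemma not_equiv_one : ¬ Equivalent (1 + ω 15) (1 + ω 7 + ω 7 * ω 5) := by
  rintro ⟨γ', u, hγ, hu, h⟩
  unfold IsConjugate at hγ
  rw [rep_two] at hγ
  obtain ⟨z, hz, rfl⟩ := exists_prim (by norm_num) prim35 _ _ hγ
  have hu' : RU u := hu
  refine classes_ne hz hu'.inv (RU.of_prim (by norm_num) (ω_prim (show 0 < 15 by norm_num))) ?_
  rw [h, inv_mul_cancel_left₀ hu'.ne_zero]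

lemma not_equiv_two : ¬ Equivalent (1 + ω 7 + ω 7 * ω 5) (1 + ω 15) := by
  rintro ⟨γ', u, hγ, hu, h⟩
  unfold IsConjugate at hγ
  rw [rep_one] at hγ
  obtain ⟨w, hw, rfl⟩ := exists_prim (by norm_num) (ω_prim (show 0 < 15 by norm_num)) _ _ hγ
  rw [rep_two] at h
  refine classes_ne prim35 hu (RU.of_prim (by norm_num) hw) ?_
  rw [h]
  simp

/-- At every level `n` the polynomial values at primitive roots are cyclotomic integers. -/
lemma isCyc {n : ℕ} (hn : 0 < n) {z : ℂ} (hz : IsPrimitiveRoot z n) (f : ℤ[X]) :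
    IsCyclotomicInteger (aeval z f) := by
  constructor
  · exact .of_mem_of_fg _ ((hz.isIntegral hn).fg_adjoin_singleton) _
      (aeval_mem_adjoin_singleton ℤ _)
  · refine ⟨n, hn, ?_⟩
    have : NeZero n := ⟨hn.ne'⟩
    obtain ⟨i, _, hi⟩ := (Complex.isPrimitiveRoot_exp n hn.ne').eq_pow_of_pow_eq_one hz.pow_eq_one
    have hzm : z ∈ IntermediateField.adjoin ℚ {Complex.exp (2 * Real.pi * Complex.I / n)} := by
      rw [← hi]
      exact pow_mem (IntermediateField.mem_adjoin_simple_self ℚ _) i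
    rw [aeval_eq_sum_range]
    refine sum_mem fun j _ => ?_
    rw [zsmul_eq_mul]
    exact mul_mem (intCast_mem _ _) (pow_mem hzm j)

/-- A cyclotomic integer has Cassels height `9/4` if and only if it is equivalent to `1 + ω₁₅` or
to `1 + ω₇ + ω₇ ω₅`. These two are cyclotomic integers, and they are not equivalent, so there are
exactly two equivalence classes. -/
theorem result :
    (∀ β : ℂ, IsCyclotomicInteger β →
      (casselsHeight β = 9 / 4 ↔
        Equivalent β (1 + ω 15) ∨ Equivalent β (1 + ω 7 + ω 7 * ω 5))) ∧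
    IsCyclotomicInteger (1 + ω 15) ∧ IsCyclotomicInteger (1 + ω 7 + ω 7 * ω 5) ∧
    casselsHeight (1 + ω 15) = 9 / 4 ∧ casselsHeight (1 + ω 7 + ω 7 * ω 5) = 9 / 4 ∧
    ¬ Equivalent (1 + ω 15) (1 + ω 7 + ω 7 * ω 5) ∧
    ¬ Equivalent (1 + ω 7 + ω 7 * ω 5) (1 + ω 15) := by
  refine ⟨?_, ?_, ?_, ?_, ?_, not_equiv_one, not_equiv_two⟩
  · rintro β ⟨hint, n, hn, hβ⟩
    constructor
    · intro h
      apply good_equiv
      have hζ := Complex.isPrimitiveRoot_exp n hn.ne'
      obtain ⟨f, rfl⟩ := int_of_field hn hζ β hint hβ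
      rw [height_eq, Ht_eq_mean hn hζ] at h
      exact main n hn f _ hζ h
    · exact equiv_height
  · rw [rep_one]; exact isCyc (by norm_num) (ω_prim (show 0 < 15 by norm_num)) _
  · rw [rep_two]; exact isCyc (by norm_num) prim35 _
  · exact equiv_height (Or.inl (equiv_refl _))
  · exact equiv_height (Or.inr (equiv_refl _))

end Pool.Agent.Results.MP_42a792_nt.HeightNineQuarters
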